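import Pool.Agent.J6H61.GL.Uni
import Pool.Agent.H398R2.RK.Surv

set_option autoImplicit false
set_option linter.unusedVariables false

/-! # The least prime in Goldbach representations is large for many even integers -/

namespace Pool.Agent.J6H61.GL

open Finset Filter Pool.Agent.N837.LP

open scoped Classical

/-- the odd primes up to `t` -/
noncomputable def OP (t : ℝ) : Finset ℕ := (Finset.Icc 1 ⌊t⌋₊).filter (fun p => p.Prime ∧ p ≠ 2)

theorem OP_card (t : ℝ) : (OP t).card ≤ Nat.primeCounting ⌊t⌋₊ := by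
  rw [Nat.primeCounting, Nat.primeCounting', Nat.count_eq_card_filter_range]
  apply Finset.card_le_card
  intro p hp
  rw [OP, mem_filter, mem_Icc] at hp
  rw [mem_filter, mem_range]
  exact ⟨by omega, hp.2.1⟩

theorem mem_OP {t : ℝ} {p : ℕ} : p ∈ OP t ↔ (p : ℝ) ≤ t ∧ p.Prime ∧ p ≠ 2 := by
  rw [OP, mem_filter, mem_Icc]
  constructor
  · rintro ⟨⟨h1, h2⟩, h3⟩
    exact ⟨(Nat.le_floor_iff' (by omega)).1 h2, h3⟩
  · rintro ⟨h1, h2, h3⟩
    exact ⟨⟨h2.pos, (Nat.le_floor_iff' h2.ne_zero).2 h1⟩, h2, h3⟩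

/-- `p + r = m` or `m + p = r` with primes `p`, `r` only if `p > t` -/
def Far (t : ℝ) (m : ℕ) : Prop :=
  ∀ p r : ℕ, p.Prime → r.Prime → (p + r = m ∨ m + p = r) → t < p

/-- the `n` in `(M, M + X]` for which `a + q n` is far from the primes -/
def Prog (M X t : ℝ) (q a : ℕ) : Set ℕ :=
  {n : ℕ | M < n ∧ (n : ℝ) ≤ M + X ∧ Far t (a + q * n)}

theorem Prog_finite (M X t : ℝ) (q a : ℕ) : (Prog M X t q a).Finite := by
  apply (Set.finite_Iic ⌊M + X⌋₊).subset
  intro n hn
  rw [Set.mem_Iic]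
  exact Nat.le_floor hn.2.1

/-- the signed prime -/
def sg (z : ℕ × Bool) : ℤ := if z.2 then (z.1 : ℤ) else -(z.1 : ℤ)

theorem sg_inj {y z : ℕ × Bool} (hy : 0 < y.1) (hz : 0 < z.1) (h : sg y = sg z) : y = z := by
  obtain ⟨p, s⟩ := y
  obtain ⟨r, u⟩ := z
  unfold sg at h
  cases s <;> cases u <;> simp only [if_true, if_false, Bool.false_eq_true] at h hy hz ⊢
  · have : p = r := by omega
    rw [this]
  · omega
  · omega
  · have : p = r := by omega
    rw [this]

theorem abs_sg (z : ℕ × Bool) : |(sg z : ℝ)| = z.1 := by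
  unfold sg
  split_ifs
  · push_cast
    exact abs_of_nonneg (Nat.cast_nonneg _)
  · push_cast
    rw [abs_neg]
    exact abs_of_nonneg (Nat.cast_nonneg _)

/-- the index set -/
abbrev Ix (t : ℝ) : Type := {z : ℕ × Bool // z ∈ (OP t) ×ˢ (Finset.univ : Finset Bool)}

theorem Ix_prime {t : ℝ} (i : Ix t) : (i.1.1 : ℝ) ≤ t ∧ i.1.1.Prime ∧ i.1.1 ≠ 2 :=
  mem_OP.1 (Finset.mem_product.1 i.2).1

theorem Ix_card (t : ℝ) : (Fintype.card (Ix t) : ℝ) ≤ 2 * Nat.primeCounting ⌊t⌋₊ := by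
  rw [Fintype.card_coe, Finset.card_product, Finset.card_univ, Fintype.card_bool]
  push_cast
  have h := OP_card t
  have h1 : ((OP t).card : ℝ) ≤ Nat.primeCounting ⌊t⌋₊ := by exact_mod_cast h
  linarith

/-- passage from the sets `RG` -/
theorem prog_of_RG {M X t : ℝ} {q a : ℕ} (hq : Even q) (ha : Even a) (hq1 : 1 ≤ q) (hX : 16 ≤ X)
    (hM : √X ≤ M) (ht : t + X ^ (1 / 4 : ℝ) < √X) :
    (RG M X (X ^ (1 / 4 : ℝ)) 1 (fun _ : Ix t => (q : ℤ)) (fun i => (a : ℤ) + sg i.1)).ncard ≤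
      (Prog M X t q a).ncard := by
  have hX0 : 0 < X := by linarith
  have hs4 : (4 : ℝ) ≤ √X := by
    apply Real.le_sqrt_of_sq_le
    linarith
  refine Set.ncard_le_ncard_of_injOn (fun z : ℤ => z.toNat) ?_ ?_ (Prog_finite _ _ _ _ _)
  · intro z hz
    obtain ⟨h1, h2, -, h4⟩ := hz
    have hz0 : (0 : ℝ) < z := by linarith
    have hz0' : 0 < z := by exact_mod_cast hz0
    have hzn : ((z.toNat : ℕ) : ℤ) = z := Int.toNat_of_nonneg hz0'.le
    have hznR : ((z.toNat : ℕ) : ℝ) = z := by exact_mod_cast hzn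
    have hm1 : √X < ((a + q * z.toNat : ℕ) : ℝ) := by
      push_cast
      rw [hznR]
      have e1 : (1 : ℝ) ≤ q := by exact_mod_cast hq1
      have e2 : (0 : ℝ) ≤ a := Nat.cast_nonneg _
      nlinarith
    have hmeven : Even (a + q * z.toNat) := ha.add (hq.mul_right _)
    refine ⟨by rw [hznR]; exact h1, by rw [hznR]; exact h2, ?_⟩
    intro p r hp hr hpr
    by_contra hcon
    push Not at hcon
    have hm5 : 4 < a + q * z.toNat := by
      have : (4 : ℝ) < ((a + q * z.toNat : ℕ) : ℝ) := by linarith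
      exact_mod_cast this
    by_cases hp2 : p = 2
    · subst hp2
      obtain ⟨k, hk⟩ := hmeven
      have hr2 : 2 ∣ r := by omega
      have := (Nat.prime_dvd_prime_iff_eq Nat.prime_two hr).1 hr2
      omega
    · have hpO : p ∈ OP t := mem_OP.2 ⟨hcon, hp, hp2⟩
      have hp1 : (1 : ℝ) ≤ p := by exact_mod_cast hp.one_lt.le
      rcases hpr with hpr | hpr
      · obtain ⟨l, hl, hl1, -, hl3⟩ := h4 ⟨(p, false), Finset.mem_product.2 ⟨hpO, mem_univ _⟩⟩
        have e1 : (q : ℤ) * z + ((a : ℤ) + sg (p, false)) = (r : ℤ) := by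
          have e2 : sg (p, false) = -(p : ℤ) := by simp [sg]
          have e3 : ((p + r : ℕ) : ℤ) = ((a + q * z.toNat : ℕ) : ℤ) := by rw [hpr]
          push_cast at e3
          rw [e2]
          rw [hzn] at e3
          linarith
        have hl4 : l ∣ r := by
          have : (l : ℤ) ∣ (r : ℤ) := by rw [← e1]; exact hl3
          exact_mod_cast this
        have hl5 := (Nat.prime_dvd_prime_iff_eq hl hr).1 hl4
        have e4 : (r : ℝ) + p = ((a + q * z.toNat : ℕ) : ℝ) := by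
          rw [← hpr]; push_cast; ring
        rw [hl5] at hl1
        linarith
      · obtain ⟨l, hl, hl1, -, hl3⟩ := h4 ⟨(p, true), Finset.mem_product.2 ⟨hpO, mem_univ _⟩⟩
        have e1 : (q : ℤ) * z + ((a : ℤ) + sg (p, true)) = (r : ℤ) := by
          have e2 : sg (p, true) = (p : ℤ) := by simp [sg]
          have e3 : ((a + q * z.toNat + p : ℕ) : ℤ) = (r : ℤ) := by rw [hpr]
          push_cast at e3
          rw [e2]
          rw [hzn] at e3
          linarith
        have hl4 : l ∣ r := by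
          have : (l : ℤ) ∣ (r : ℤ) := by rw [← e1]; exact hl3
          exact_mod_cast this
        have hl5 := (Nat.prime_dvd_prime_iff_eq hl hr).1 hl4
        have e4 : (r : ℝ) = ((a + q * z.toNat : ℕ) : ℝ) + p := by
          rw [← hpr]; push_cast; ring
        rw [hl5] at hl1
        have e5 : X ^ (1 / 4 : ℝ) ≤ √X := by
          rw [Real.sqrt_eq_rpow]
          exact Real.rpow_le_rpow_of_exponent_le (by linarith) (by norm_num)
        linarith
  · intro y hy z hz h
    have hy1 : M < y := hy.1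
    have hz1 : M < z := hz.1
    have hy0 : (0 : ℝ) < y := by linarith
    have hz0 : (0 : ℝ) < z := by linarith
    have hy0' : 0 < y := by exact_mod_cast hy0
    have hz0' : 0 < z := by exact_mod_cast hz0
    have h' : y.toNat = z.toNat := h
    omega

theorem Ix_det {t : ℝ} {q a : ℕ} (hq1 : 1 ≤ q) (i j : Ix t) (hij : i ≠ j) :
    (q : ℤ) * ((a : ℤ) + sg j.1) - (q : ℤ) * ((a : ℤ) + sg i.1) ≠ 0 := by
  intro h
  have h1 : (q : ℤ) * (sg j.1 - sg i.1) = 0 := by linarith
  have h2 : (q : ℤ) ≠ 0 := by exact_mod_cast (by omega : q ≠ 0)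
  rcases mul_eq_zero.1 h1 with h3 | h3
  · exact h2 h3
  · have h4 := sg_inj (Ix_prime j).2.1.pos (Ix_prime i).2.1.pos (by linarith)
    exact hij (Subtype.ext h4.symm)

theorem Ix_sum {t K L : ℝ} {q : ℕ} (hq1 : 1 ≤ q)
    (h : (Nat.primeCounting ⌊t⌋₊ : ℝ) ≤ K * ((q.totient : ℝ) / q) * L) :
    ∑ _i : Ix t, ((((q : ℤ)).natAbs : ℝ) / (((q : ℤ)).natAbs.totient : ℝ)) ≤ 2 * K * L := by
  rw [Int.natAbs_natCast, Finset.sum_const, Finset.card_univ, nsmul_eq_mul]
  have h1 := Ix_card t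
  have hq0 : (0 : ℝ) < q := by exact_mod_cast hq1
  have hφ : (0 : ℝ) < q.totient := by exact_mod_cast Nat.totient_pos.2 hq1
  calc (Fintype.card (Ix t) : ℝ) * ((q : ℝ) / q.totient) ≤
        (2 * (K * ((q.totient : ℝ) / q) * L)) * ((q : ℝ) / q.totient) :=
        mul_le_mul_of_nonneg_right (by linarith) (by positivity)
    _ = 2 * K * L := by field_simp

/-- a bound for `t` from the number of primes up to `t` -/
theorem t_bound : ∃ L₀ : ℝ, ∀ L : ℝ, L₀ ≤ L → ∀ t : ℝ,
    (Nat.primeCounting ⌊t⌋₊ : ℝ) ≤ L ^ 2 → t ≤ L ^ 3 / 4 := by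
  have h1 : ∀ᶠ L : ℝ in atTop, 4 ≤ L := eventually_ge_atTop _
  have h2 : ∀ᶠ L : ℝ in atTop, 48 * Real.log L ≤ L := by
    have := (Real.isLittleO_log_id_atTop).def (show (0:ℝ) < 1 / 48 by positivity)
    filter_upwards [this, eventually_ge_atTop (1:ℝ)] with L hL h1
    have hl := Real.log_nonneg h1
    rw [Real.norm_of_nonneg hl, id, Real.norm_of_nonneg (by linarith)] at hL
    linarith
  obtain ⟨L₀, hL₀⟩ := Filter.eventually_atTop.1 (h1.and h2)
  refine ⟨max L₀ 32, fun L hL t ht => ?_⟩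
  obtain ⟨g1, g2⟩ := hL₀ L ((le_max_left _ _).trans hL)
  have hL32 : 32 ≤ L := (le_max_right _ _).trans hL
  by_contra hcon
  push Not at hcon
  -- monotonicity: work at `T = L ^ 3 / 4`
  set T : ℝ := L ^ 3 / 4 with hT
  have hT1 : 1000 ≤ T := by
    rw [hT]
    have : (32 : ℝ) ^ 3 ≤ L ^ 3 := pow_le_pow_left₀ (by norm_num) hL32 3
    norm_num at this
    linarith
  have hmono : (Nat.primeCounting ⌊T⌋₊ : ℝ) ≤ L ^ 2 := by
    refine le_trans ?_ ht
    exact_mod_cast Nat.monotone_primeCounting (Nat.floor_mono hcon.le)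
  have h3 := Chebyshev.psi_ge' (x := T) (by linarith)
  have h4 := Chebyshev.psi_le_primeCounting_mul_log' T
  have hlogT : Real.log T ≤ 3 * Real.log L := by
    have e1 : T ≤ L ^ 3 := by rw [hT]; have : 0 < L ^ 3 := by positivity
                              linarith
    have e2 := Real.log_le_log (by linarith) e1
    rw [Real.log_pow] at e2
    push_cast at e2
    exact e2
  have hlogT0 : 0 ≤ Real.log T := Real.log_nonneg (by linarith)
  have h5 : (Nat.primeCounting ⌊T⌋₊ : ℝ) * Real.log T ≤ L ^ 2 * (3 * Real.log L) :=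
    mul_le_mul hmono hlogT hlogT0 (by positivity)
  have h6 : Real.log (T + 2) ≤ T / 100 := by
    have e1 : Real.log (T + 2) ≤ Real.log (2 * T) := Real.log_le_log (by linarith) (by linarith)
    rw [Real.log_mul (by norm_num) (by linarith)] at e1
    have e2 := Real.log_two_lt_d9
    have e3 : Real.log T ≤ 3 * (L / 48) := by linarith
    have e4 : L * 1024 ≤ L ^ 3 := by
      have : (32 : ℝ) ^ 2 ≤ L ^ 2 := pow_le_pow_left₀ (by norm_num) hL32 2
      nlinarith
    have e5 : L ≤ T * 4 / 1024 := by rw [hT]; linarith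
    linarith
  have h7 := Real.log_two_gt_d9
  have h8 : L ^ 2 * (3 * Real.log L) ≤ L ^ 3 / 16 := by
    have e1 : L ^ 2 * (3 * Real.log L) ≤ L ^ 2 * (3 * (L / 48)) :=
      mul_le_mul_of_nonneg_left (by linarith) (by positivity)
    have e2 : L ^ 2 * (3 * (L / 48)) = L ^ 3 / 16 := by ring
    linarith
  have h9 : L ^ 3 / 16 = T / 4 := by rw [hT]; ring
  nlinarith

/-- **uniform in `K`, small moduli** -/
theorem part_one : ∃ C c X₀ : ℝ, 0 < C ∧ 0 < c ∧ ∀ X : ℝ, X₀ ≤ X → ∀ K : ℝ, 1 ≤ K →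
    K ≤ c * Real.log (Real.log X) → ∀ q a : ℕ, Even q → Even a → 1 ≤ q → (q : ℝ) ≤ Real.log X →
    ∀ t : ℝ, (Nat.primeCounting ⌊t⌋₊ : ℝ) ≤ K * ((q.totient : ℝ) / q) * Real.log X →
    ∀ M : ℝ, √X ≤ M →
    X * Real.exp (-Real.exp (C * K)) ≤ ((Prog M X t q a).ncard : ℝ) := by
  obtain ⟨C₀, X₁, hC₀, hU⟩ := mainU (1 / 4) (by norm_num)
  obtain ⟨L₀, hL₀⟩ := t_bound
  have t1 := Real.tendsto_log_atTop
  have h1 : ∀ᶠ X : ℝ in atTop, max L₀ 8 ≤ Real.log X := t1.eventually_ge_atTop _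
  have h2 : ∀ᶠ X : ℝ in atTop, Real.log X ^ 3 / 4 + X ^ (1 / 4 : ℝ) < √X := by
    have e1 : ∀ᶠ X : ℝ in atTop, Real.log X ^ 3 ≤ X ^ (1 / 4 : ℝ) := by
      have := (isLittleO_log_rpow_rpow_atTop (3 : ℝ) (show (0:ℝ) < 1 / 4 by norm_num)).def
        (show (0:ℝ) < 1 by norm_num)
      filter_upwards [this, eventually_ge_atTop (1:ℝ)] with X hX hX1
      have hl := Real.log_nonneg hX1
      rw [Real.norm_of_nonneg (by positivity), Real.norm_of_nonneg (by positivity), one_mul] at hX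
      calc Real.log X ^ 3 = Real.log X ^ (3 : ℝ) := by norm_cast
        _ ≤ _ := hX
    have e2 : ∀ᶠ X : ℝ in atTop, (2 : ℝ) ≤ X ^ (1 / 4 : ℝ) :=
      (tendsto_rpow_atTop (by norm_num)).eventually_ge_atTop _
    filter_upwards [e1, e2, eventually_ge_atTop (1:ℝ)] with X hX hX2 hX1
    have e3 : √X = X ^ (1 / 4 : ℝ) * X ^ (1 / 4 : ℝ) := by
      rw [Real.sqrt_eq_rpow, ← Real.rpow_add (by linarith)]
      norm_num
    rw [e3]
    nlinarith
  obtain ⟨X₂, hX₂⟩ := Filter.eventually_atTop.1 (h1.and (h2.and (eventually_ge_atTop 16)))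
  refine ⟨32 + C₀, 1 / 64, max X₁ X₂, by linarith, by norm_num, ?_⟩
  intro X hX K hK hKX q a hq ha hq1 hqX t ht M hM
  obtain ⟨g1, g2, g3⟩ := hX₂ X ((le_max_right _ _).trans hX)
  have hL8 : 8 ≤ Real.log X := (le_max_right _ _).trans g1
  have hLL := (le_max_left _ _).trans g1
  set L := Real.log X with hL
  have hL0 : 0 < L := by linarith
  have hq0 : (0 : ℝ) < q := by exact_mod_cast hq1
  have hφq : ((q.totient : ℝ) / q) ≤ 1 := by
    rw [div_le_one hq0]
    exact_mod_cast Nat.totient_le q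
  have hφq0 : 0 ≤ ((q.totient : ℝ) / q) := by positivity
  have hlogL : Real.log L ≤ L := (Real.log_le_sub_one_of_pos hL0).trans (by linarith)
  have hKL : K ≤ L := by
    have : 0 ≤ Real.log L := Real.log_nonneg (by linarith)
    linarith
  have ht2 : (Nat.primeCounting ⌊t⌋₊ : ℝ) ≤ L ^ 2 := by
    refine ht.trans ?_
    have e1 : K * ((q.totient : ℝ) / q) ≤ L * 1 := mul_le_mul hKL hφq hφq0 hL0.le
    nlinarith
  have htL : t ≤ L ^ 3 / 4 := hL₀ L hLL t ht2
  have hL34 : L ^ 3 ≤ L ^ 4 := pow_le_pow_right₀ (by linarith) (by norm_num)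
  have hmain := hU X ((le_max_left _ _).trans hX) (2 * K) (by linarith) (by linarith) (Ix t)
    (fun _ => (q : ℤ)) (fun i => (a : ℤ) + sg i.1) (fun _ => by exact_mod_cast (by omega : q ≠ 0))
    (fun _ => by
      push_cast
      rw [abs_of_nonneg hq0.le]
      have : L ≤ L ^ 4 := le_self_pow₀ (by linarith) (by norm_num)
      linarith)
    (fun i j hij => Ix_det hq1 i j hij)
    (fun i j => by
      have e1 : (((q : ℤ) * ((a : ℤ) + sg j.1) - (q : ℤ) * ((a : ℤ) + sg i.1) : ℤ) : ℝ) =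
          (q : ℝ) * ((sg j.1 : ℝ) - (sg i.1 : ℝ)) := by push_cast; ring
      rw [e1, abs_mul, abs_of_nonneg hq0.le]
      have e2 : |(sg j.1 : ℝ) - (sg i.1 : ℝ)| ≤ 2 * t := by
        refine (abs_sub _ _).trans ?_
        rw [abs_sg, abs_sg]
        have := (Ix_prime i).1
        have := (Ix_prime j).1
        linarith
      have e3 : (0 : ℝ) ≤ 2 * t := le_trans (abs_nonneg _) e2
      calc (q : ℝ) * |(sg j.1 : ℝ) - (sg i.1 : ℝ)| ≤ L * (2 * t) :=
            mul_le_mul hqX e2 (abs_nonneg _) hL0.le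
        _ ≤ L * (2 * (L ^ 3 / 4)) := by gcongr
        _ ≤ L ^ 4 := by nlinarith [pow_pos hL0 4])
    (Ix_sum hq1 ht) M
  have hcard := prog_of_RG (t := t) (M := M) (X := X) hq ha hq1 g3 hM
    (lt_of_le_of_lt (by linarith) g2)
  have hcardR : ((RG M X (X ^ (1 / 4 : ℝ)) 1 (fun _ : Ix t => (q : ℤ))
    (fun i => (a : ℤ) + sg i.1)).ncard : ℝ) ≤ ((Prog M X t q a).ncard : ℝ) := by exact_mod_cast hcard
  refine le_trans ?_ (hmain.trans hcardR)
  apply mul_le_mul_of_nonneg_left _ (by linarith)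
  apply Real.exp_le_exp.2
  apply neg_le_neg
  apply Real.exp_le_exp.2
  nlinarith

/-- **every modulus up to any power of `X`** -/
theorem part_two : ∃ C : ℝ, 0 < C ∧ ∀ K B : ℝ, 1 ≤ K → 1 ≤ B → ∃ X₀ : ℝ, ∀ X : ℝ, X₀ ≤ X →
    ∀ q a : ℕ, Even q → Even a → 1 ≤ q → (q : ℝ) ≤ X ^ B → a ≤ q →
    ∀ t : ℝ, (Nat.primeCounting ⌊t⌋₊ : ℝ) ≤ K * ((q.totient : ℝ) / q) * Real.log X →
    ∀ M : ℝ, √X ≤ M →
    X * Real.exp (-Real.exp (C * K)) ≤ ((Prog M X t q a).ncard : ℝ) := by
  obtain ⟨C₀, hC₀, hG⟩ := mainG (1 / 4) (by norm_num)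
  obtain ⟨L₀, hL₀⟩ := t_bound
  refine ⟨32 + C₀, by linarith, ?_⟩
  intro K B hK hB
  obtain ⟨X₁, hU⟩ := hG (2 * K) (B + 1) (by linarith) (by linarith)
  have t1 := Real.tendsto_log_atTop
  have h1 : ∀ᶠ X : ℝ in atTop, max (max L₀ K) 8 ≤ Real.log X := t1.eventually_ge_atTop _
  have h2 : ∀ᶠ X : ℝ in atTop, Real.log X ^ 3 / 4 + X ^ (1 / 4 : ℝ) < √X := by
    have e1 : ∀ᶠ X : ℝ in atTop, Real.log X ^ 3 ≤ X ^ (1 / 4 : ℝ) := by
      have := (isLittleO_log_rpow_rpow_atTop (3 : ℝ) (show (0:ℝ) < 1 / 4 by norm_num)).def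
        (show (0:ℝ) < 1 by norm_num)
      filter_upwards [this, eventually_ge_atTop (1:ℝ)] with X hX hX1
      have hl := Real.log_nonneg hX1
      rw [Real.norm_of_nonneg (by positivity), Real.norm_of_nonneg (by positivity), one_mul] at hX
      calc Real.log X ^ 3 = Real.log X ^ (3 : ℝ) := by norm_cast
        _ ≤ _ := hX
    have e2 : ∀ᶠ X : ℝ in atTop, (2 : ℝ) ≤ X ^ (1 / 4 : ℝ) :=
      (tendsto_rpow_atTop (by norm_num)).eventually_ge_atTop _
    filter_upwards [e1, e2, eventually_ge_atTop (1:ℝ)] with X hX hX2 hX1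
    have e3 : √X = X ^ (1 / 4 : ℝ) * X ^ (1 / 4 : ℝ) := by
      rw [Real.sqrt_eq_rpow, ← Real.rpow_add (by linarith)]
      norm_num
    rw [e3]
    nlinarith
  obtain ⟨X₂, hX₂⟩ := Filter.eventually_atTop.1 (h1.and (h2.and (eventually_ge_atTop 16)))
  refine ⟨max X₁ X₂, ?_⟩
  intro X hX q a hq ha hq1 hqX haq t ht M hM
  obtain ⟨g1, g2, g3⟩ := hX₂ X ((le_max_right _ _).trans hX)
  have hL8 : 8 ≤ Real.log X := (le_max_right _ _).trans g1
  have hLL := (le_max_left _ _).trans ((le_max_left _ _).trans g1)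
  have hKL := (le_max_right _ _).trans ((le_max_left _ _).trans g1)
  set L := Real.log X with hL
  have hL0 : 0 < L := by linarith
  have hX0 : 0 < X := by linarith
  have hq0 : (0 : ℝ) < q := by exact_mod_cast hq1
  have hφq : ((q.totient : ℝ) / q) ≤ 1 := by
    rw [div_le_one hq0]
    exact_mod_cast Nat.totient_le q
  have hφq0 : 0 ≤ ((q.totient : ℝ) / q) := by positivity
  have ht2 : (Nat.primeCounting ⌊t⌋₊ : ℝ) ≤ L ^ 2 := by
    refine ht.trans ?_
    have e1 : K * ((q.totient : ℝ) / q) ≤ L * 1 := mul_le_mul hKL hφq hφq0 hL0.le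
    nlinarith
  have htL : t ≤ L ^ 3 / 4 := hL₀ L hLL t ht2
  have hsX : √X ≤ X := by
    rw [Real.sqrt_le_left hX0.le]
    nlinarith
  have hX4 : 0 < X ^ (1 / 4 : ℝ) := by positivity
  have hpw : X ^ (B + 1) = X ^ B * X := by rw [Real.rpow_add hX0, Real.rpow_one]
  have hXB : 1 ≤ X ^ B := Real.one_le_rpow (by linarith) (by linarith)
  have hqX' : (q : ℝ) ≤ X ^ (B + 1) := by
    rw [hpw]
    nlinarith
  have hmain := hU X ((le_max_left _ _).trans hX) (Ix t)
    (fun _ => (q : ℤ)) (fun i => (a : ℤ) + sg i.1) 1 one_pos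
    (by
      rw [Nat.cast_one]
      exact Real.one_le_rpow (by linarith) (by linarith))
    (fun _ => by exact_mod_cast (by omega : q ≠ 0))
    (fun _ => by
      push_cast
      rw [abs_of_nonneg hq0.le]
      exact hqX')
    (fun i => by
      have e1 : |(((a : ℤ) + sg i.1 : ℤ) : ℝ)| ≤ a + t := by
        push_cast
        refine (abs_add_le _ _).trans ?_
        rw [abs_sg, abs_of_nonneg (Nat.cast_nonneg _)]
        have := (Ix_prime i).1
        linarith
      have e2 : (a : ℝ) ≤ X ^ B := by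
        have : (a : ℝ) ≤ q := by exact_mod_cast haq
        linarith
      refine e1.trans ?_
      rw [hpw]
      have e3 : t ≤ X / 4 := by
        have b1 : (4 : ℝ) ≤ √X := by
          apply Real.le_sqrt_of_sq_le
          linarith
        have b2 := Real.mul_self_sqrt hX0.le
        nlinarith
      nlinarith)
    (fun i j hij => Ix_det hq1 i j hij)
    (by
      have h := Ix_sum (t := t) (K := K) (L := L) hq1 ht
      refine h.trans (le_of_eq ?_)
      simp only [Nat.totient_one, Nat.cast_one, div_one, mul_one]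
      rfl)
    M
  have hcard := prog_of_RG (t := t) (M := M) (X := X) hq ha hq1 g3 hM
    (lt_of_le_of_lt (by linarith) g2)
  have hcardR : ((RG M X (X ^ (1 / 4 : ℝ)) 1 (fun _ : Ix t => (q : ℤ))
    (fun i => (a : ℤ) + sg i.1)).ncard : ℝ) ≤ ((Prog M X t q a).ncard : ℝ) := by exact_mod_cast hcard
  refine le_trans ?_ (hmain.trans hcardR)
  simp only [Nat.totient_one, Nat.cast_one, div_one, one_mul]
  apply mul_le_mul_of_nonneg_left _ hX0.le
  apply Real.exp_le_exp.2
  apply neg_le_neg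
  apply Real.exp_le_exp.2
  nlinarith

theorem pc_eq (n : ℕ) : Nat.primeCounting n = ((Icc 1 n).filter Nat.Prime).card := by
  rw [Nat.primeCounting, Nat.primeCounting', Nat.count_eq_card_filter_range]
  congr 1
  ext p
  rw [mem_filter, mem_filter, mem_range, mem_Icc]
  constructor
  · rintro ⟨h1, h2⟩
    exact ⟨⟨h2.pos, by omega⟩, h2⟩
  · rintro ⟨h1, h2⟩
    exact ⟨by omega, h2⟩

/-- **the tail of the distribution of the least prime** -/
theorem part_three : ∃ C c X₀ : ℝ, 0 < C ∧ 0 < c ∧ ∀ X : ℝ, X₀ ≤ X → ∀ K : ℝ, 1 ≤ K →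
    K ≤ c * Real.log (Real.log X) →
    X * Real.exp (-Real.exp (C * K)) ≤ (({m : ℕ | Even m ∧ 4 ≤ m ∧ (m : ℝ) ≤ X ∧
      Far (K * (Real.log m * Real.log (Real.log m))) m} : Set ℕ).ncard : ℝ) := by
  obtain ⟨C, c, X₁, hC, hc, h⟩ := part_one
  have t1 := Real.tendsto_log_atTop
  have h1 : ∀ᶠ X : ℝ in atTop, 4 ≤ Real.log (Real.log X) := (t1.comp t1).eventually_ge_atTop _
  obtain ⟨X₂, hX₂⟩ := Filter.eventually_atTop.1 (h1.and ((t1.eventually_ge_atTop 4).and
    ((eventually_ge_atTop 64).and (eventually_ge_atTop (4 * X₁)))))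
  refine ⟨40 * C + 1, c / 80, X₂, by linarith, by positivity, ?_⟩
  intro X hX K hK hKX
  obtain ⟨g1, g2, g3, g4⟩ := hX₂ X hX
  have hX0 : 0 < X := by linarith
  have hlog4 : Real.log 4 ≤ 2 := by
    have e1 : (4 : ℝ) = 2 ^ 2 := by norm_num
    rw [e1, Real.log_pow]
    have := Real.log_two_lt_d9
    push_cast
    linarith
  have hl1 : Real.log X / 2 ≤ Real.log (X / 4) := by
    rw [Real.log_div hX0.ne' (by norm_num)]
    linarith
  have hl2 : Real.log (Real.log X) / 2 ≤ Real.log (Real.log (X / 4)) := by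
    have e1 := Real.log_le_log (by linarith) hl1
    rw [Real.log_div (by linarith) (by norm_num)] at e1
    have := Real.log_two_lt_d9
    linarith
  set l1 := Real.log X with hl1d
  set l2 := Real.log l1 with hl2d
  set t : ℝ := K * (l1 * l2) with ht
  have hl10 : 0 < l1 := by linarith
  have hl20 : 0 < l2 := by linarith
  have ht1 : l1 + 1 ≤ t := by
    rw [ht]
    have e1 : l1 * 4 ≤ l1 * l2 := mul_le_mul_of_nonneg_left g1 hl10.le
    have e2 : l1 * l2 ≤ K * (l1 * l2) := le_mul_of_one_le_left (by positivity) hK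
    linarith
  have ht0 : 0 < t := by linarith
  set N : ℕ := ⌊t⌋₊ with hN
  have hN1 : l1 ≤ N := by
    have := Nat.lt_floor_add_one t
    rw [← hN] at this
    linarith
  have hN2 : (N : ℝ) ≤ t := Nat.floor_le ht0.le
  have hN3 : 2 ≤ N := by
    have : (2 : ℝ) ≤ N := by linarith
    exact_mod_cast this
  have hpi := Pool.Agent.H398R2.RK.primes_le N hN3
  rw [← pc_eq] at hpi
  have hlogN : l2 ≤ Real.log N := Real.log_le_log hl10 hN1
  have hpi2 : (Nat.primeCounting N : ℝ) ≤ 40 * K * (((2 : ℕ).totient : ℝ) / (2 : ℕ)) *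
      Real.log (X / 4) := by
    have e1 : 10 * (N : ℝ) / Real.log N ≤ 10 * t / l2 := by gcongr
    have e2 : 10 * t / l2 = 10 * K * l1 := by
      rw [ht]
      field_simp
    have e3 : 10 * K * l1 ≤ 40 * K * (1 / 2) * Real.log (X / 4) := by
      have := mul_le_mul_of_nonneg_left hl1 (show 0 ≤ 20 * K by linarith)
      linarith
    have e4 : (((2 : ℕ).totient : ℝ) / (2 : ℕ)) = 1 / 2 := by
      rw [Nat.totient_two]
      norm_num
    rw [e4]
    linarith
  have hsq : √(X / 4) ≤ X / 4 := by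
    rw [Real.sqrt_le_left (by linarith)]
    nlinarith
  have hmain := h (X / 4) (by linarith) (40 * K) (by linarith)
    (by
      have e1 : c / 80 * l2 = c * (l2 / 2) / 40 := by ring
      have e2 : c * (l2 / 2) ≤ c * Real.log (Real.log (X / 4)) :=
        mul_le_mul_of_nonneg_left hl2 hc.le
      linarith)
    2 0 even_two (by simp) (by norm_num)
    (by
      push_cast
      linarith)
    t hpi2 (X / 4) hsq
  have hinj : (Prog (X / 4) (X / 4) t 2 0).ncard ≤ ({m : ℕ | Even m ∧ 4 ≤ m ∧ (m : ℝ) ≤ X ∧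
      Far (K * (Real.log m * Real.log (Real.log m))) m} : Set ℕ).ncard := by
    refine Set.ncard_le_ncard_of_injOn (fun n => 2 * n) ?_ ?_ ?_
    · intro n hn
      obtain ⟨q1, q2, q3⟩ := hn
      rw [zero_add] at q3
      have hm : X / 2 < ((2 * n : ℕ) : ℝ) := by
        push_cast
        linarith
      have hmX : ((2 * n : ℕ) : ℝ) ≤ X := by
        push_cast
        linarith
      have hmlog : Real.log ((2 * n : ℕ) : ℝ) ≤ l1 := Real.log_le_log (by linarith) hmX
      have hmlog0 : 1 ≤ Real.log ((2 * n : ℕ) : ℝ) := by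
        have e1 : Real.log (X / 4) ≤ Real.log ((2 * n : ℕ) : ℝ) :=
          Real.log_le_log (by linarith) (by linarith)
        linarith
      have hmll : Real.log (Real.log ((2 * n : ℕ) : ℝ)) ≤ l2 :=
        Real.log_le_log (by linarith) hmlog
      have hmll0 : 0 ≤ Real.log (Real.log ((2 * n : ℕ) : ℝ)) := Real.log_nonneg hmlog0
      refine ⟨even_two_mul n, ?_, hmX, ?_⟩
      · have : (4 : ℝ) ≤ ((2 * n : ℕ) : ℝ) := by linarith
        exact_mod_cast this
      · intro p r hp hr hpr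
        refine lt_of_le_of_lt ?_ (q3 p r hp hr hpr)
        rw [ht]
        apply mul_le_mul_of_nonneg_left _ (by linarith)
        exact mul_le_mul hmlog hmll hmll0 hl10.le
    · intro x _ y _ hxy
      have : 2 * x = 2 * y := hxy
      omega
    · apply (Set.finite_Iic ⌊X⌋₊).subset
      intro m hm
      rw [Set.mem_Iic]
      exact Nat.le_floor hm.2.2.1
  have hinjR : ((Prog (X / 4) (X / 4) t 2 0).ncard : ℝ) ≤ _ := Nat.cast_le.2 hinj
  refine le_trans ?_ (hmain.trans hinjR)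
  have e1 : Real.exp (C * (40 * K)) + Real.log 4 ≤ Real.exp ((40 * C + 1) * K) := by
    have a0 : (40 * C + 1) * K = C * (40 * K) + K := by ring
    rw [a0, Real.exp_add]
    have a1 : K + 1 ≤ Real.exp K := Real.add_one_le_exp K
    have a3 : (2.7 : ℝ) ≤ Real.exp K := by
      have := Real.exp_one_gt_d9
      have a4 : Real.exp 1 ≤ Real.exp K := Real.exp_le_exp.2 hK
      linarith
    have a2 : 1 ≤ Real.exp (C * (40 * K)) := Real.one_le_exp (by positivity)
    have a5 : Real.log 4 ≤ 1.4 := by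
      have e1 : (4 : ℝ) = 2 ^ 2 := by norm_num
      rw [e1, Real.log_pow]
      have := Real.log_two_lt_d9
      push_cast
      linarith
    nlinarith
  have e2 : Real.exp (-Real.exp ((40 * C + 1) * K)) ≤ Real.exp (-Real.exp (C * (40 * K))) * (1 / 4) := by
    have a1 : (1 / 4 : ℝ) = Real.exp (-Real.log 4) := by
      rw [Real.exp_neg, Real.exp_log (by norm_num)]
      norm_num
    rw [a1, ← Real.exp_add]
    apply Real.exp_le_exp.2
    linarith
  calc X * Real.exp (-Real.exp ((40 * C + 1) * K)) ≤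
        X * (Real.exp (-Real.exp (C * (40 * K))) * (1 / 4)) := mul_le_mul_of_nonneg_left e2 hX0.le
    _ = X / 4 * Real.exp (-Real.exp (C * (40 * K))) := by ring

end Pool.Agent.J6H61.GL
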