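import Pool.Agent.N837.LP.FinG

set_option autoImplicit false
set_option linter.unusedVariables false

/-! # Families of linear forms with small coefficients, uniformly in the number of the forms

The theorem `mainG` of `Pool.Agent.N837.LP` for families of at most `K log X` linear forms, uniformly
in `1 ≤ K ≤ c log log X`, if the coefficients and determinants are at most `(log X) ^ 4`. -/

namespace Pool.Agent.J6H61.GL

open Finset Filter Pool.Agent.H256R2.SC Pool.Agent.Y831.RC Pool.Agent.N837.LP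

open scoped Classical

theorem ev_U (t s : ℝ) (ht : 0 < t) (ht16 : t ≤ 1 / 16) :
    ∃ L₀ : ℝ, ∀ L : ℝ, L₀ ≤ L →
      1 ≤ L ∧ 1 ≤ Real.log L ∧ 3 ≤ t / 8 * L ∧ 15 * (1 / 32 * Real.log L) + s ≤ (1 - t) * Real.log L ∧
      L * L ≤ L ^ (4 + t) ∧ L ^ (1 + t) ≤ L ^ (4 + t) ∧ L ^ (4 + t) ≤ L ^ 8 ∧
      WW (t / 8 * L) ≤ (4 + t) * (1 + t) * WW (L ^ (4 + t)) ∧
      Real.exp ((1 - t) * L) + 1 ≤ Real.exp ((1 - t / 4) * L) ∧
      32 ≤ Real.exp ((1 - t / 4) * L) ∧ L ^ 4 ≤ L ^ (4 + t) := by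
  have t1 := Real.tendsto_log_atTop
  have h0 : ∀ᶠ L : ℝ in atTop, 1 ≤ L := eventually_ge_atTop _
  have h1 : ∀ᶠ L : ℝ in atTop, 1 ≤ Real.log L := t1.eventually_ge_atTop _
  have h2 : ∀ᶠ L : ℝ in atTop, 3 ≤ t / 8 * L := by
    filter_upwards [eventually_ge_atTop (24 / t)] with L hL
    rw [div_le_iff₀ ht] at hL
    linarith
  have h3 : ∀ᶠ L : ℝ in atTop, 15 * (1 / 32 * Real.log L) + s ≤ (1 - t) * Real.log L := by
    filter_upwards [t1.eventually_ge_atTop (4 * s), h1] with L hL hL1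
    have : 15 / 16 * Real.log L ≤ (1 - t) * Real.log L :=
      mul_le_mul_of_nonneg_right (by linarith) (by linarith)
    linarith
  have h4 : ∀ᶠ L : ℝ in atTop, L * L ≤ L ^ (4 + t) := by
    filter_upwards [eventually_ge_atTop (1:ℝ)] with L hL1
    have e1 : L ^ (2:ℝ) ≤ L ^ (4 + t) := Real.rpow_le_rpow_of_exponent_le hL1 (by linarith)
    rw [Real.rpow_two] at e1
    nlinarith
  have h5 : ∀ᶠ L : ℝ in atTop, L ^ (1 + t) ≤ L ^ (4 + t) := by
    filter_upwards [eventually_ge_atTop (1:ℝ)] with L hL1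
    exact Real.rpow_le_rpow_of_exponent_le hL1 (by linarith)
  have h6 : ∀ᶠ L : ℝ in atTop, L ^ (4 + t) ≤ L ^ 8 := by
    filter_upwards [eventually_ge_atTop (1:ℝ)] with L hL1
    calc L ^ (4 + t) ≤ L ^ (8:ℝ) := Real.rpow_le_rpow_of_exponent_le hL1 (by linarith)
      _ = L ^ 8 := by norm_cast
  have h7 := ev_WW t (4 + t) ht (by linarith) (by linarith)
  have h8 : ∀ᶠ L : ℝ in atTop,
      Real.exp ((1 - t) * L) + 1 ≤ Real.exp ((1 - t / 4) * L) := by
    have a0 : Tendsto (fun L : ℝ => 3 * t / 4 * L) atTop atTop :=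
      Filter.Tendsto.const_mul_atTop (by positivity) Filter.tendsto_id
    have a1 := Real.tendsto_exp_atTop.comp a0
    filter_upwards [a1.eventually_ge_atTop 4, eventually_ge_atTop (0:ℝ)] with L hL hL0
    have e1 : Real.exp ((1 - t / 4) * L) = Real.exp ((1 - t) * L) * Real.exp (3 * t / 4 * L) := by
      rw [← Real.exp_add]; congr 1; ring
    have e2 : 1 ≤ Real.exp ((1 - t) * L) := Real.one_le_exp (by
      have : 0 ≤ 1 - t := by linarith
      positivity)
    have e3 : 4 ≤ Real.exp (3 * t / 4 * L) := hL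
    rw [e1]
    nlinarith
  have h9 : ∀ᶠ L : ℝ in atTop, 32 ≤ Real.exp ((1 - t / 4) * L) :=
    (Real.tendsto_exp_atTop.comp (Filter.Tendsto.const_mul_atTop
      (show (0:ℝ) < 1 - t / 4 by linarith) Filter.tendsto_id)).eventually_ge_atTop _
  have h10 : ∀ᶠ L : ℝ in atTop, L ^ 4 ≤ L ^ (4 + t) := by
    filter_upwards [eventually_ge_atTop (1:ℝ)] with L hL1
    calc L ^ 4 = L ^ (4:ℝ) := by norm_cast
      _ ≤ L ^ (4 + t) := Real.rpow_le_rpow_of_exponent_le hL1 (by linarith)
  exact Filter.eventually_atTop.1 (h0.and (h1.and (h2.and (h3.and (h4.and (h5.and (h6.and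
    (h7.and (h8.and (h9.and h10))))))))))

theorem mainU (δ : ℝ) (hδ : 0 < δ) : ∃ C₀ X₀ : ℝ, 0 ≤ C₀ ∧ ∀ X : ℝ, X₀ ≤ X →
    ∀ K : ℝ, 1 ≤ K → K ≤ 1 / 32 * Real.log (Real.log X) →
    ∀ (ι : Type) [Fintype ι] (α β : ι → ℤ), (∀ i, α i ≠ 0) →
    (∀ i, |(α i : ℝ)| ≤ (Real.log X) ^ 4) →
    (∀ i j, i ≠ j → α i * β j - α j * β i ≠ 0) →
    (∀ i j, |((α i * β j - α j * β i : ℤ) : ℝ)| ≤ (Real.log X) ^ 4) →
    ∑ i, (((α i).natAbs : ℝ) / ((α i).natAbs.totient : ℝ)) ≤ K * Real.log X →
    ∀ M : ℝ, X * Real.exp (-Real.exp (16 * K + C₀)) ≤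
      ((RG M X (X ^ δ) 1 α β).ncard : ℝ) := by
  set t : ℝ := min (1 / 16) δ with htdef
  have ht : 0 < t := lt_min (by norm_num) hδ
  have ht16 : t ≤ 1 / 16 := min_le_left _ _
  have ht8 : t ≤ 1 / 8 := by linarith
  have htδ : t ≤ δ := min_le_right _ _
  obtain ⟨e₀, X₁, hcov⟩ := covW t ht ht8
  set s : ℝ := |e₀| + 1 with hs
  have hs0 : 0 ≤ s := by positivity
  obtain ⟨L₀, hL₀⟩ := ev_U t s ht ht16
  refine ⟨Real.log (2 * (15 + s) ^ 2 * Real.exp s + 8 / t), max X₁ (Real.exp L₀), ?_, ?_⟩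
  · apply Real.log_nonneg
    have h1 : 1 ≤ Real.exp s := Real.one_le_exp hs0
    have h2 : 0 < 8 / t := by positivity
    nlinarith [sq_nonneg s]
  intro X hX K hK hKX ι _ α β hα hαX hdet hdetX hsumα M
  have hK0 : 0 < K := by linarith
  set e : ℝ := 15 * K + s with he
  have he15 : 15 * K ≤ e := by linarith
  have he1 : 1 ≤ e := by linarith
  have hee₀ : e₀ ≤ e := by
    have := le_abs_self e₀
    linarith
  have he0 : 0 < e := by linarith
  set Φ := Real.exp (e ^ 2 * Real.exp e) with hΦdef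
  have hΦ1 : 1 ≤ Φ := Real.one_le_exp (by positivity)
  have hΦ0 : 0 < Φ := by linarith
  have hX1 : X₁ ≤ X := (le_max_left _ _).trans hX
  have hXe : Real.exp L₀ ≤ X := (le_max_right _ _).trans hX
  have hX0 : 0 < X := lt_of_lt_of_le (Real.exp_pos _) hXe
  have hLL : L₀ ≤ Real.log X := by
    rw [Real.le_log_iff_exp_le hX0]
    exact hXe
  obtain ⟨k0, k1, k2, k3, k4, k5, k6, k7, k8, k11, k12⟩ := hL₀ (Real.log X) hLL
  have hXL : Real.exp (Real.log X) = X := Real.exp_log hX0
  set L := Real.log X with hL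
  have hL0 : 0 < L := by linarith
  have hXone : 1 ≤ X := by
    rw [← hXL]
    exact Real.one_le_exp hL0.le
  set x := t / 8 * L with hx
  have hx0 : 0 < x := by linarith
  set w := L ^ (4 + t) with hw
  have hw0 : 0 < w := Real.rpow_pos_of_pos hL0 _
  set P : ℕ := primorial ⌊x⌋₊ with hP
  have hPpos : 0 < P := primorial_pos _
  have hPr : (0:ℝ) < P := by exact_mod_cast hPpos
  have hPx : (P:ℝ) ≤ Real.exp (t / 4 * L) := by
    refine (primorial_le_exp x hx0.le).trans ?_
    apply Real.exp_le_exp.2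
    rw [hx]
    linarith
  have hQ : Real.exp ((1 - t / 4) * L) ≤ X / (P : ℝ) := by
    rw [le_div_iff₀ hPr]
    have e3 : Real.exp ((1 - t / 4) * L) * Real.exp (t / 4 * L) = X := by
      rw [← Real.exp_add, ← hXL]
      congr 1
      ring
    calc Real.exp ((1 - t / 4) * L) * P ≤ Real.exp ((1 - t / 4) * L) * Real.exp (t / 4 * L) :=
          mul_le_mul_of_nonneg_left hPx (Real.exp_pos _).le
      _ = X := e3
  have hQ32 : 32 ≤ X / (P : ℝ) := k11.trans hQ
  have hPd : (P : ℝ) ≤ X := by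
    have : (1:ℝ) ≤ X / P := by linarith
    rw [le_div_iff₀ hPr] at this
    linarith
  have hKL : K ≤ L := by
    have h1 : Real.log L ≤ L := (Real.log_le_sub_one_of_pos hL0).trans (by linarith)
    have h2 : 0 ≤ Real.log L := by linarith
    linarith
  -- the number of forms
  have hm : (Fintype.card ι : ℝ) ≤ K * L := by
    have h1 : (Fintype.card ι : ℝ) ≤ ∑ i, (((α i).natAbs : ℝ) / ((α i).natAbs.totient : ℝ)) := by
      have e1 : (Fintype.card ι : ℝ) = ∑ _i : ι, (1:ℝ) := by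
        rw [Finset.sum_const, nsmul_eq_mul, mul_one, card_univ]
      rw [e1]
      apply Finset.sum_le_sum
      intro i _
      have e2 : (0:ℝ) < ((α i).natAbs.totient : ℝ) := by
        exact_mod_cast Nat.totient_pos.2 (Int.natAbs_pos.2 (hα i))
      rw [le_div_iff₀ e2, one_mul]
      exact_mod_cast Nat.totient_le _
    exact h1.trans hsumα
  have hmw : (Fintype.card ι : ℝ) ≤ w :=
    hm.trans ((mul_le_mul_of_nonneg_right hKL hL0.le).trans k4)
  -- the classes
  set g := P.gcd 1 with hg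
  set G₀ := (range P).filter (fun b => g.Coprime b) with hG₀
  have hG₀' : G₀ = range P := by
    rw [hG₀, hg, Nat.gcd_one_right]
    exact Finset.filter_true_of_mem fun b _ => Nat.coprime_one_left b
  have hG₀c : (G₀.card : ℝ) = P := by
    rw [hG₀', card_range]
  have hPtot : (P.totient : ℝ) = P * WW x := by
    rw [hP]
    exact tot_prim x
  have hG₀pos : (0:ℝ) < G₀.card := by rw [hG₀c]; exact hPr
  have hWx := WW_pos x
  set S := K * L * WW x with hS
  have hS0 : 0 < S := by positivity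
  set f : ℕ → ℕ := fun b => ((univ : Finset ι).filter (fun i => ∀ p : ℕ, p.Prime → (p : ℝ) ≤ x →
      ¬ p ∣ 1 → ¬ (p : ℤ) ∣ α i * b + β i)).card with hf
  have hsum : ((∑ b ∈ G₀, f b : ℕ) : ℝ) ≤ G₀.card * S := by
    have h1 := sumG x hx0.le 1 one_pos α β hα
    refine h1.trans ?_
    calc (P.totient : ℝ) * ∑ i, (((α i).natAbs : ℝ) / ((α i).natAbs.totient : ℝ)) ≤
          (P.totient : ℝ) * (K * L) :=
          mul_le_mul_of_nonneg_left hsumα (Nat.cast_nonneg _)
      _ = G₀.card * S := by rw [hPtot, hS, hG₀c]; ring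
  have hgood := good_cardG G₀ f S t ht hS0 hsum
  set G := G₀.filter (fun b => (f b : ℝ) ≤ (1 + t) * S) with hG
  have hbound : (1 + t) * S ≤ (1 / 2 - 3 * t) * (e * L * WW w) := by
    have hW := WW_pos w
    have e3 : S ≤ K * L * ((4 + t) * (1 + t) * WW w) :=
      mul_le_mul_of_nonneg_left k7 (by positivity)
    have e4 : (1 + t) * S ≤ (1 + t) * (K * L * ((4 + t) * (1 + t) * WW w)) :=
      mul_le_mul_of_nonneg_left e3 (by linarith)
    have e5 : (1 + t) * (K * L * ((4 + t) * (1 + t) * WW w)) =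
        ((1 + t) * ((4 + t) * (1 + t)) * K) * (L * WW w) := by ring
    have e6 : 0 ≤ L * WW w := by positivity
    have e7 : (1 + t) * ((4 + t) * (1 + t)) ≤ (1 / 2 - 3 * t) * 15 := by
      have b1 : (1 + t) * ((4 + t) * (1 + t)) ≤ 459 / 100 := by nlinarith [sq_nonneg t]
      have b2 : 15 * (5 / 16) ≤ (1 / 2 - 3 * t) * 15 := by nlinarith
      linarith
    have e8 : (1 + t) * ((4 + t) * (1 + t)) * K ≤ (1 / 2 - 3 * t) * e := by
      have b1 := mul_le_mul_of_nonneg_right e7 (show 0 ≤ K by linarith)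
      have b2 : (1 / 2 - 3 * t) * (15 * K) ≤ (1 / 2 - 3 * t) * e :=
        mul_le_mul_of_nonneg_left he15 (by linarith)
      linarith
    have e9 := mul_le_mul_of_nonneg_right e8 e6
    have e10 : (1 / 2 - 3 * t) * (e * L * WW w) =
        (1 / 2 - 3 * t) * e * (L * WW w) := by ring
    rw [e10]
    linarith
  have hy : Real.exp (t ^ 2 * L / (100 * e)) ≤ X ^ δ := by
    rw [Real.rpow_def_of_pos hX0, mul_comm]
    apply Real.exp_le_exp.2
    have he0 : 0 < 100 * e := by linarith only [he1]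
    rw [div_le_iff₀ he0]
    have e1 : t ^ 2 ≤ δ * (100 * e) := q_tδ ht ht8 htδ he1
    have e2 := mul_le_mul_of_nonneg_right e1 hL0.le
    linarith only [e2]
  have hxy : x ≤ X ^ δ := by
    rw [Real.rpow_def_of_pos hX0, mul_comm]
    have e1 := Real.add_one_le_exp (δ * L)
    have e2 : x ≤ δ * L := by
      rw [hx]
      apply mul_le_mul_of_nonneg_right _ hL0.le
      linarith only [htδ, ht]
    linarith only [e1, e2]
  have hxw : x ≤ w := by
    have e1 : x ≤ L := by
      rw [hx]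
      nlinarith
    have e2 : L ≤ L ^ (1 + t) := by
      calc L = L ^ (1:ℝ) := (Real.rpow_one L).symm
        _ ≤ L ^ (1 + t) := Real.rpow_le_rpow_of_exponent_le k0 (by linarith only [ht])
    exact e1.trans (e2.trans k5)
  have hlen : Real.exp ((1 - t) * L) ≤ X / (P : ℝ) - 1 := by linarith only [k8, hQ]
  set τ : ι → ℤ := fun i => ((Fintype.equivFin ι i : ℕ) : ℤ) with hτdef
  have hτ : ∀ p : ℕ, w < p → ∀ i j, i ≠ j → ¬ (p : ℤ) ∣ τ i - τ j := by
    intro p hp i j hij hdvd
    have hmp : Fintype.card ι < p := by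
      have : (Fintype.card ι : ℝ) < p := lt_of_le_of_lt hmw hp
      exact_mod_cast this
    have hi := (Fintype.equivFin ι i).isLt
    have hj := (Fintype.equivFin ι j).isLt
    have hne : τ i - τ j ≠ 0 := by
      intro h
      apply hij
      apply (Fintype.equivFin ι).injective
      apply Fin.ext
      have h2 : τ i = τ j := by linarith
      simp only [hτdef] at h2
      exact_mod_cast h2
    have habs := Int.le_of_dvd (abs_pos.2 hne) ((dvd_abs _ _).2 hdvd)
    have h3 : |τ i - τ j| < p := by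
      rw [abs_lt]
      simp only [hτdef]
      constructor <;> omega
    omega
  -- a nonzero integer of absolute value at most `L ^ 4` has no prime factor larger than `w`
  have hsmall : ∀ (p : ℕ), w < p → ∀ z : ℤ, z ≠ 0 → |(z : ℝ)| ≤ L ^ 4 → ¬ (p : ℤ) ∣ z := by
    intro p hp z hz hzL hdvd
    have habs := Int.le_of_dvd (abs_pos.2 hz) ((dvd_abs _ _).2 hdvd)
    have h1 : (p : ℝ) ≤ |(z : ℝ)| := by exact_mod_cast habs
    linarith
  set R : Finset ℤ := (RG_finite M X (X ^ δ) 1 α β).toFinset with hR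
  set v := 3 / 8 * (X / P - 1) with hv
  have hv4 : X / P / 4 ≤ v := by
    rw [hv]
    linarith
  have hclass : ∀ b ∈ G, v ≤ ((R.filter (fun n : ℤ => (P : ℤ) ∣ n - b)).card : ℝ) * Φ := by
    intro b hb
    obtain ⟨hbG₀, hbS⟩ := Finset.mem_filter.1 hb
    have hcardU : (f b : ℝ) ≤ (1 / 2 - 3 * t) * (e * L * WW w) := hbS.trans hbound
    have hW1 := WW_le_one w
    have hW0 := WW_pos w
    have hu : (((univ : Finset ι).filter (fun i => ∀ p : ℕ, p.Prime → (p : ℝ) ≤ x → ¬ p ∣ 1 →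
        ¬ (p : ℤ) ∣ α i * b + β i)).card : ℝ) ≤ e * L := by
      refine hcardU.trans ?_
      have h1 : 0 ≤ e * L := by positivity
      have h2 : e * L * WW w ≤ e * L := mul_le_of_le_one_right h1 hW1
      have h3 : 0 ≤ e * L * WW w := by positivity
      nlinarith
    have h := clsG α β τ 1 b one_pos ∅ (fun p hp => absurd hp (Finset.notMem_empty p)) x w
      (Real.exp (t ^ 2 * L / (100 * e))) (X ^ δ) X M
      (Real.exp ((1 - t) * L)) Φ (e * L) 0 0 hx0 hxw
      (fun p hp _ _ hpd => hp.one_lt.ne' (Nat.dvd_one.1 hpd))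
      (fun p hp hpw _ i hpd => hsmall p hpw _ (hα i) (hαX i) hpd)
      (fun p hp hpw _ i j hij hpd => hsmall p hpw _ (hdet i j hij) (hdetX i j) hpd)
      hτ hy hxy hΦ0.le hX0.le
      (by
        intro p hp hpx hpd hpb
        exact hp.one_lt.ne' (Nat.dvd_one.1 hpd))
      hu (by simp) (by simp)
      (hcov X hX1 e hee₀ (by linarith) w k5 k6
        ((univ : Finset ι).filter (fun i => ∀ p : ℕ, p.Prime → (p : ℝ) ≤ x → ¬ p ∣ 1 →
          ¬ (p : ℤ) ∣ α i * b + β i)) (by
          have e1 : (Fintype.card ((univ : Finset ι).filter (fun i => ∀ p : ℕ, p.Prime →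
              (p : ℝ) ≤ x → ¬ p ∣ 1 → ¬ (p : ℤ) ∣ α i * b + β i)) : ℝ) = (f b : ℝ) := by
            simp only [hf, Fintype.card_coe]
          rw [e1]
          exact hcardU))
      hlen hPd
    simp only [zero_mul, add_zero] at h
    exact h
  have hfinal := classes_cnt R P hPpos G
    ((Finset.filter_subset _ _).trans (Finset.filter_subset _ _)) v Φ hclass hΦ0.le
  have hcardR : (R.card : ℝ) = ((RG M X (X ^ δ) 1 α β).ncard : ℝ) := by
    rw [hR, Set.ncard_eq_toFinset_card _ (RG_finite M X (X ^ δ) 1 α β)]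
  rw [hcardR] at hfinal
  have hGt : t / 2 * G₀.card ≤ G.card := by
    refine le_trans ?_ hgood
    apply mul_le_mul_of_nonneg_right _ hG₀pos.le
    have h1t : 0 < 1 + t := by linarith only [ht]
    rw [div_le_div_iff₀ (by norm_num) h1t]
    have : t * t ≤ t * 1 := mul_le_mul_of_nonneg_left (by linarith only [ht8]) ht.le
    linarith only [this]
  have h1 : t / 8 * X ≤ G.card * v := by
    have hv0 : 0 ≤ X / P / 4 := by positivity
    calc t / 8 * X = t / 2 * P * (X / P / 4) := by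
          field_simp
          ring
      _ ≤ G.card * (X / P / 4) := by
          rw [← hG₀c]
          exact mul_le_mul_of_nonneg_right hGt (by rw [hG₀c]; exact hv0)
      _ ≤ G.card * v := mul_le_mul_of_nonneg_left hv4 (Nat.cast_nonneg _)
  have h2 := h1.trans hfinal
  have hcst := q_const K s t hK hs0 ht
  have h3 : X * Real.exp (-Real.exp (16 * K +
      Real.log (2 * (15 + s) ^ 2 * Real.exp s + 8 / t))) * Φ ≤ t / 8 * X := by
    have e1 : Real.exp (-Real.exp (16 * K +
        Real.log (2 * (15 + s) ^ 2 * Real.exp s + 8 / t))) * Φ ≤ t / 8 := by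
      rw [hΦdef, ← Real.exp_add]
      have e2 : -Real.exp (16 * K + Real.log (2 * (15 + s) ^ 2 * Real.exp s + 8 / t)) +
        e ^ 2 * Real.exp e ≤ -Real.log (8 / t) := by
        rw [he]
        linarith
      refine (Real.exp_le_exp.2 e2).trans (le_of_eq ?_)
      rw [Real.exp_neg, Real.exp_log (by positivity)]
      field_simp
    calc X * Real.exp (-Real.exp (16 * K +
        Real.log (2 * (15 + s) ^ 2 * Real.exp s + 8 / t))) * Φ =
        (Real.exp (-Real.exp (16 * K +
        Real.log (2 * (15 + s) ^ 2 * Real.exp s + 8 / t))) * Φ) * X := by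
          ring
      _ ≤ t / 8 * X := mul_le_mul_of_nonneg_right e1 (by positivity)
  exact le_of_mul_le_mul_right (h3.trans h2) hΦ0

end Pool.Agent.J6H61.GL
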